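import Mathlib

/-!
# Project RS: the real tau-conjecture for sums of squares is true on average

`f = h + ∑ i, c i * (∑ j ∈ A i, σ i j * z i j * X ^ j) ^ 2` with independent standard Gaussians
`z i j`, arbitrary real `c i`, arbitrary nonzero `σ i j` and an arbitrary fixed polynomial `h`:
the expected number of distinct real roots is at most `6 * ∑ i, |A i| + 2 * |h|₀ + 1`.
-/

set_option autoImplicit false

open MeasureTheory ProbabilityTheory Polynomial Filter Topology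
open scoped ENNReal

namespace Pool.Agent.W873.RS

/-- `a` and `b` are on different sides: exactly one of them is negative. -/
def sc (a b : ℝ) : Prop := ¬ (a < 0 ↔ b < 0)

/-- the standard Gaussian measure on `κ → ℝ` -/
noncomputable def gm (κ : Type) [Fintype κ] : Measure (κ → ℝ) :=
  Measure.pi (fun _ => gaussianReal 0 1)

instance (κ : Type) [Fintype κ] : IsProbabilityMeasure (gm κ) := by
  unfold gm; infer_instance

/-- inner product -/
noncomputable def ip {κ : Type} [Fintype κ] (z u : κ → ℝ) : ℝ := ∑ j, z j * u j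

/-- number of distinct positive roots -/
noncomputable def npos (g : ℝ[X]) : ℕ := (g.roots.toFinset.filter (fun x => 0 < x)).card

/-- the random sparse polynomial with support in `A` and standard deviations `σ` -/
noncomputable def lin (A : Finset ℕ) (σ : ℕ → ℝ) (z : A → ℝ) : ℝ[X] :=
  ∑ j : A, C (σ j * z j) * X ^ (j : ℕ)

/-- the random sum of squares plus the fixed polynomial `h` -/
noncomputable def total {s : ℕ} (A : Fin s → Finset ℕ) (σ : Fin s → ℕ → ℝ) (c : Fin s → ℝ)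
    (h : ℝ[X]) (z : (i : Fin s) → A i → ℝ) : ℝ[X] :=
  h + ∑ i, C (c i) * (lin (A i) (σ i) (z i)) ^ 2

/-- law of the coefficients: independent standard Gaussians -/
noncomputable def cm {s : ℕ} (A : Fin s → Finset ℕ) : Measure ((i : Fin s) → A i → ℝ) :=
  Measure.pi (fun i => gm (A i))

/-- the set of `x > 0` such that `g` changes side between `x` and `x + ε` -/
def chg (g : ℝ → ℝ) (ε : ℝ) : Set ℝ := {x | 0 < x ∧ sc (g x) (g (x + ε))}

/-! ### Parts -/

/-- GA1: two-dimensional marginals of the standard Gaussian measure. -/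
def GA1 : Prop :=
  ∀ (κ : Type) [Fintype κ] (u v : κ → ℝ) (c s : ℝ), (∑ j, u j ^ 2 = 1) → (∑ j, v j ^ 2 = 1) →
    c ^ 2 + s ^ 2 = 1 → c ^ 2 - s ^ 2 = ∑ j, u j * v j →
    (gm κ).map (fun z => (ip z u, ip z v)) =
      ((gaussianReal 0 1).prod (gaussianReal 0 1)).map
        (fun p : ℝ × ℝ => (c * p.1 + s * p.2, c * p.1 - s * p.2))

/-- GA2: one-dimensional Anderson inequality. -/
def GA2 : Prop :=
  ∀ r m : ℝ, gaussianReal 0 1 (Set.Icc (r - m) (r + m)) ≤ gaussianReal 0 1 (Set.Icc (-m) m)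

/-- GA3: crossing a level is at most as likely as crossing zero. -/
def GA3 : Prop :=
  ∀ c s t : ℝ, 0 ≤ c → 0 ≤ s →
    ((gaussianReal 0 1).prod (gaussianReal 0 1))
        {p : ℝ × ℝ | sc (c * p.1 + s * p.2 - t) (c * p.1 - s * p.2 - t)} ≤
      ((gaussianReal 0 1).prod (gaussianReal 0 1))
        {p : ℝ × ℝ | sc (c * p.1 + s * p.2) (c * p.1 - s * p.2)}

/-- GA4: one square changes. -/
def GA4 : Prop :=
  ∀ (κ : Type) [Fintype κ] (u v : κ → ℝ) (a r : ℝ), (∑ j, u j ^ 2 = 1) → (∑ j, v j ^ 2 = 1) →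
    gm κ {z | sc (a * ip z u ^ 2 + r) (a * ip z v ^ 2 + r)} ≤
      2 * gm κ {z | sc (ip z u) (ip z v)}

/-- HY: replacing the summands one after the other. -/
def HY : Prop :=
  ∀ (s : ℕ) (Y : Fin s → Type) [∀ i, MeasurableSpace (Y i)] (μ : (i : Fin s) → Measure (Y i))
    [∀ i, IsProbabilityMeasure (μ i)] (p q : (i : Fin s) → Y i → ℝ) (β : Fin s → ℝ≥0∞),
    (∀ i, Measurable (p i)) → (∀ i, Measurable (q i)) →
    (∀ i (r : ℝ), μ i {x | sc (p i x + r) (q i x + r)} ≤ β i) →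
    ∀ b : ℝ, Measure.pi μ {ω | sc (∑ i, p i (ω i) + b) (∑ i, q i (ω i) + b)} ≤ ∑ i, β i

/-- LAW: projections on unit vectors are independent standard Gaussians. -/
def LAW : Prop :=
  ∀ (s : ℕ) (κ : Fin s → Type) [∀ i, Fintype (κ i)] (u : (i : Fin s) → κ i → ℝ),
    (∀ i, ∑ j, u i j ^ 2 = 1) →
    (Measure.pi (fun i => gm (κ i))).map (fun z i => ip (z i) (u i)) =
      Measure.pi (fun _ : Fin s => gaussianReal 0 1)

/-- DET1: the set of `x` at which a sparse polynomial changes side within `ε` is small. -/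
def DET1 : Prop :=
  ∀ (g : ℝ[X]) (ε : ℝ), 0 < ε →
    volume (chg (fun x => g.eval x) ε) ≤ ENNReal.ofReal ε * ((g.support.card - 1 : ℕ) : ℝ≥0∞)

/-- DET2: a strict change of sign of a continuous function costs measure at least `ε`. -/
def DET2 : Prop :=
  ∀ (g : ℝ → ℝ) (p q : ℝ), Continuous g → p < q → g p * g q < 0 →
    ∀ᶠ ε in 𝓝[>] (0 : ℝ), ENNReal.ofReal ε ≤ volume {x | x ∈ Set.Ioo p q ∧ sc (g x) (g (x + ε))}

/-- DET3: every positive root of `f` is seen twice by `f - δ` and `f + δ`. -/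
def DET3 : Prop :=
  ∀ f : ℝ[X], f ≠ 0 → ∀ᶠ δ in 𝓝[>] (0 : ℝ), ∀ᶠ ε in 𝓝[>] (0 : ℝ),
    ENNReal.ofReal ε * (2 * npos f) ≤
      volume (chg (fun x => (f - C δ).eval x) ε) + volume (chg (fun x => (f + C δ).eval x) ε)

/-- TON: Tonelli. -/
def TON : Prop :=
  ∀ (Ω : Type) [MeasurableSpace Ω] (μ : Measure Ω) [IsProbabilityMeasure μ] (F : Ω → ℝ → ℝ)
    (ε : ℝ), Measurable (Function.uncurry F) →
    Measurable (fun ω => volume (chg (F ω) ε)) ∧
    ∫⁻ ω, volume (chg (F ω) ε) ∂μ =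
      ∫⁻ x in Set.Ioi (0 : ℝ), μ {ω | sc (F ω x) (F ω (x + ε))}

/-- FAT: Fatou's lemma twice. -/
def FAT : Prop :=
  ∀ (Ω : Type) [MeasurableSpace Ω] (μ : Measure Ω) (N : Ω → ℝ≥0∞) (X : ℝ → ℝ → Ω → ℝ≥0∞)
    (B : ℝ≥0∞), (∀ δ ε, Measurable (X δ ε)) →
    (∀ ω, ∀ᶠ δ in 𝓝[>] (0 : ℝ), ∀ᶠ ε in 𝓝[>] (0 : ℝ), N ω ≤ X δ ε ω) →
    (∀ δ ε, 0 < δ → 0 < ε → ∫⁻ ω, X δ ε ω ∂μ ≤ B) → ∫⁻ ω, N ω ∂μ ≤ B

/-- MEAS: the number of distinct real roots is a measurable function. -/
def MEAS : Prop :=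
  ∀ {s : ℕ} (A : Fin s → Finset ℕ) (σ : Fin s → ℕ → ℝ) (c : Fin s → ℝ) (h : ℝ[X]),
    Measurable (fun z => (total A σ c h z).roots.toFinset.card)

/-- JM: joint measurability of the values. -/
def JM : Prop :=
  ∀ {s : ℕ} (A : Fin s → Finset ℕ) (σ : Fin s → ℕ → ℝ) (c : Fin s → ℝ) (h : ℝ[X]),
    Measurable (Function.uncurry (fun z x => (total A σ c h z).eval x)) ∧
    ∀ (A : Finset ℕ) (σ : ℕ → ℝ), Measurable (Function.uncurry (fun z x => (lin A σ z).eval x))

/-- frozen polynomial: the directions are frozen, only the variances move. -/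
noncomputable def frz {s : ℕ} (A : Fin s → Finset ℕ) (σ : Fin s → ℕ → ℝ) (c : Fin s → ℝ)
    (h : ℝ[X]) (y : Fin s → ℝ) : ℝ[X] :=
  h + ∑ i, C (c i * y i ^ 2) * ∑ j ∈ A i, C (σ i j ^ 2) * X ^ (2 * j)

/-- FRZ: sparsity of the frozen polynomial, and measurability. -/
def FRZ : Prop :=
  ∀ {s : ℕ} (A : Fin s → Finset ℕ) (σ : Fin s → ℕ → ℝ) (c : Fin s → ℝ) (h : ℝ[X]),
    (∀ y, (frz A σ c h y).support.card ≤ h.support.card + ∑ i, (A i).card) ∧
    Measurable (Function.uncurry (fun y x => (frz A σ c h y).eval x)) ∧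
    ∀ (A : Finset ℕ) (σ : ℕ → ℝ) (z : A → ℝ), (lin A σ z).support.card ≤ A.card

/-- PAIR: the main inequality for two points. -/
def PAIR : Prop :=
  ∀ {s : ℕ} (A : Fin s → Finset ℕ) (σ : Fin s → ℕ → ℝ) (c : Fin s → ℝ) (h : ℝ[X]) (x y : ℝ),
    0 < x → 0 < y → (∀ i, (A i).Nonempty) → (∀ i, ∀ j ∈ A i, σ i j ≠ 0) →
    cm A {z | sc ((total A σ c h z).eval x) ((total A σ c h z).eval y)} ≤
      Measure.pi (fun _ : Fin s => gaussianReal 0 1)
        {w | sc ((frz A σ c h w).eval x) ((frz A σ c h w).eval y)} +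
      ∑ i, 2 * gm (A i) {z | sc ((lin (A i) (σ i) z).eval x) ((lin (A i) (σ i) z).eval y)}

/-- NEG: negative roots are positive roots of a polynomial of the same kind. -/
def NEG : Prop :=
  ∀ {s : ℕ} (A : Fin s → Finset ℕ) (σ : Fin s → ℕ → ℝ) (c : Fin s → ℝ) (h : ℝ[X])
    (z : (i : Fin s) → A i → ℝ),
    (total A σ c h z).roots.toFinset.card ≤ npos (total A σ c h z) +
      npos (total A (fun i j => (-1) ^ j * σ i j) c (h.comp (-X)) z) + 1 ∧
    (h.comp (-X)).support.card = h.support.card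

end Pool.Agent.W873.RS
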