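import Pool.Agent.W873.RS.Stm

set_option autoImplicit false

open MeasureTheory ProbabilityTheory Polynomial Filter Topology
open scoped ENNReal

namespace Pool.Agent.W873.RS

instance instCm {s : ℕ} (A : Fin s → Finset ℕ) : IsProbabilityMeasure (cm A) := by
  unfold cm; infer_instance

/-- expected measure of the change set. -/
theorem expected_chg (hTON : TON) (hDET1 : DET1) (hPAIR : PAIR) (hJM : JM) (hFRZ : FRZ)
    {s : ℕ} (A : Fin s → Finset ℕ) (σ : Fin s → ℕ → ℝ) (c : Fin s → ℝ) (h : ℝ[X])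
    (hA : ∀ i, (A i).Nonempty) (hσ : ∀ i, ∀ j ∈ A i, σ i j ≠ 0) (ε : ℝ) (hε : 0 < ε) :
    ∫⁻ z, volume (chg (fun x => (total A σ c h z).eval x) ε) ∂(cm A) ≤
      ENNReal.ofReal ε * (((h.support.card + ∑ i, (A i).card - 1 : ℕ) : ℝ≥0∞) +
        2 * ((∑ i, (A i).card : ℕ) : ℝ≥0∞)) := by
  have hJ := (hJM A σ c h).1
  have hF := hFRZ A σ c h
  rw [(hTON _ (cm A) (fun z x => (total A σ c h z).eval x) ε hJ).2]
  have hlinJ : ∀ i, Measurable (Function.uncurry (fun z x => (lin (A i) (σ i) z).eval x)) :=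
    fun i => (hJM A σ c h).2 (A i) (σ i)
  have h1 : ∀ x ∈ Set.Ioi (0 : ℝ),
      cm A {z | sc ((total A σ c h z).eval x) ((total A σ c h z).eval (x + ε))} ≤
      Measure.pi (fun _ : Fin s => gaussianReal 0 1)
        {w | sc ((frz A σ c h w).eval x) ((frz A σ c h w).eval (x + ε))} +
      ∑ i, 2 * gm (A i) {z | sc ((lin (A i) (σ i) z).eval x) ((lin (A i) (σ i) z).eval (x + ε))} := by
    intro x hx
    exact hPAIR A σ c h x (x + ε) hx (by have : 0 < x := hx; linarith) hA hσ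
  refine le_trans (setLIntegral_mono' measurableSet_Ioi h1) ?_
  -- measurability of the inner functions
  have mfrz : Measurable (fun x : ℝ => Measure.pi (fun _ : Fin s => gaussianReal 0 1)
        {w | sc ((frz A σ c h w).eval x) ((frz A σ c h w).eval (x + ε))}) := by
    have hE : MeasurableSet {p : ℝ × (Fin s → ℝ) |
        sc ((frz A σ c h p.2).eval p.1) ((frz A σ c h p.2).eval (p.1 + ε))} := by
      have m1 : Measurable (fun p : ℝ × (Fin s → ℝ) => (frz A σ c h p.2).eval p.1) :=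
        hF.2.1.comp measurable_swap
      have m2 : Measurable (fun p : ℝ × (Fin s → ℝ) => (frz A σ c h p.2).eval (p.1 + ε)) :=
        hF.2.1.comp (measurable_snd.prodMk (measurable_fst.add_const ε))
      have e : {p : ℝ × (Fin s → ℝ) |
        sc ((frz A σ c h p.2).eval p.1) ((frz A σ c h p.2).eval (p.1 + ε))} =
        {p | ((frz A σ c h p.2).eval p.1) < 0 ↔ ((frz A σ c h p.2).eval (p.1 + ε)) < 0}ᶜ := rfl
      rw [e]
      exact ((m1 measurableSet_Iio).iff (m2 measurableSet_Iio)).compl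
    exact measurable_measure_prodMk_left hE
  have mlin : ∀ i, Measurable (fun x : ℝ => gm (A i)
        {z | sc ((lin (A i) (σ i) z).eval x) ((lin (A i) (σ i) z).eval (x + ε))}) := by
    intro i
    have hE : MeasurableSet {p : ℝ × (A i → ℝ) |
        sc ((lin (A i) (σ i) p.2).eval p.1) ((lin (A i) (σ i) p.2).eval (p.1 + ε))} := by
      have m1 : Measurable (fun p : ℝ × (A i → ℝ) => (lin (A i) (σ i) p.2).eval p.1) :=
        (hlinJ i).comp measurable_swap
      have m2 : Measurable (fun p : ℝ × (A i → ℝ) => (lin (A i) (σ i) p.2).eval (p.1 + ε)) :=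
        (hlinJ i).comp (measurable_snd.prodMk (measurable_fst.add_const ε))
      have e : {p : ℝ × (A i → ℝ) |
        sc ((lin (A i) (σ i) p.2).eval p.1) ((lin (A i) (σ i) p.2).eval (p.1 + ε))} =
        {p | ((lin (A i) (σ i) p.2).eval p.1) < 0 ↔
          ((lin (A i) (σ i) p.2).eval (p.1 + ε)) < 0}ᶜ := rfl
      rw [e]
      exact ((m1 measurableSet_Iio).iff (m2 measurableSet_Iio)).compl
    exact measurable_measure_prodMk_left hE
  rw [lintegral_add_left mfrz, lintegral_finsetSum _ (fun i _ => (mlin i).const_mul 2)]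
  have t1 : ∫⁻ x in Set.Ioi (0 : ℝ), Measure.pi (fun _ : Fin s => gaussianReal 0 1)
        {w | sc ((frz A σ c h w).eval x) ((frz A σ c h w).eval (x + ε))} ≤
      ENNReal.ofReal ε * ((h.support.card + ∑ i, (A i).card - 1 : ℕ) : ℝ≥0∞) := by
    rw [← (hTON _ (Measure.pi (fun _ : Fin s => gaussianReal 0 1))
      (fun w x => (frz A σ c h w).eval x) ε hF.2.1).2]
    calc ∫⁻ w, volume (chg (fun x => (frz A σ c h w).eval x) ε)
          ∂(Measure.pi (fun _ : Fin s => gaussianReal 0 1)) ≤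
        ∫⁻ _w, ENNReal.ofReal ε * ((h.support.card + ∑ i, (A i).card - 1 : ℕ) : ℝ≥0∞)
          ∂(Measure.pi (fun _ : Fin s => gaussianReal 0 1)) := by
          apply lintegral_mono
          intro w
          refine le_trans (hDET1 (frz A σ c h w) ε hε) ?_
          refine mul_le_mul_right ?_ _
          have := hF.1 w
          exact_mod_cast Nat.sub_le_sub_right this 1
      _ = _ := by rw [lintegral_const, measure_univ, mul_one]
  have t2 : ∀ i, ∫⁻ x in Set.Ioi (0 : ℝ), 2 * gm (A i)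
        {z | sc ((lin (A i) (σ i) z).eval x) ((lin (A i) (σ i) z).eval (x + ε))} ≤
      ENNReal.ofReal ε * (2 * ((A i).card : ℝ≥0∞)) := by
    intro i
    rw [lintegral_const_mul _ (mlin i)]
    rw [← (hTON _ (gm (A i)) (fun z x => (lin (A i) (σ i) z).eval x) ε (hlinJ i)).2]
    have : ∫⁻ z, volume (chg (fun x => (lin (A i) (σ i) z).eval x) ε) ∂(gm (A i)) ≤
        ENNReal.ofReal ε * ((A i).card : ℝ≥0∞) := by
      calc ∫⁻ z, volume (chg (fun x => (lin (A i) (σ i) z).eval x) ε) ∂(gm (A i)) ≤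
          ∫⁻ _z, ENNReal.ofReal ε * ((A i).card : ℝ≥0∞) ∂(gm (A i)) := by
            apply lintegral_mono
            intro z
            refine le_trans (hDET1 (lin (A i) (σ i) z) ε hε) ?_
            refine mul_le_mul_right ?_ _
            exact_mod_cast le_trans (Nat.sub_le _ _) (hF.2.2 (A i) (σ i) z)
        _ = _ := by rw [lintegral_const, measure_univ, mul_one]
    calc 2 * ∫⁻ z, volume (chg (fun x => (lin (A i) (σ i) z).eval x) ε) ∂(gm (A i)) ≤
        2 * (ENNReal.ofReal ε * ((A i).card : ℝ≥0∞)) := by gcongr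
      _ = _ := by ring
  calc _ ≤ ENNReal.ofReal ε * ((h.support.card + ∑ i, (A i).card - 1 : ℕ) : ℝ≥0∞) +
        ∑ i, ENNReal.ofReal ε * (2 * ((A i).card : ℝ≥0∞)) :=
        add_le_add t1 (Finset.sum_le_sum (fun i _ => t2 i))
    _ = _ := by
        rw [← Finset.mul_sum, ← Finset.mul_sum, mul_add]
        push_cast
        ring

theorem total_sub {s : ℕ} (A : Fin s → Finset ℕ) (σ : Fin s → ℕ → ℝ) (c : Fin s → ℝ) (h : ℝ[X])
    (δ : ℝ) (z : (i : Fin s) → A i → ℝ) :
    total A σ c (h - C δ) z = total A σ c h z - C δ := by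
  unfold total; ring

theorem total_add {s : ℕ} (A : Fin s → Finset ℕ) (σ : Fin s → ℕ → ℝ) (c : Fin s → ℝ) (h : ℝ[X])
    (δ : ℝ) (z : (i : Fin s) → A i → ℝ) :
    total A σ c (h + C δ) z = total A σ c h z + C δ := by
  unfold total; ring

theorem card_add_C (h : ℝ[X]) (δ : ℝ) : (h + C δ).support.card ≤ h.support.card + 1 := by
  have h1 : (h + C δ).support ⊆ h.support ∪ (C δ).support := support_add
  refine le_trans (Finset.card_le_card h1) (le_trans (Finset.card_union_le _ _) ?_)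
  have : (C δ : ℝ[X]).support.card ≤ 1 := by
    have h2 : (C δ : ℝ[X]).support ⊆ {0} := support_C_subset δ
    exact le_trans (Finset.card_le_card h2) (by simp)
  omega

theorem card_sub_C (h : ℝ[X]) (δ : ℝ) : (h - C δ).support.card ≤ h.support.card + 1 := by
  have := card_add_C h (-δ)
  simpa [sub_eq_add_neg] using this

/-- the approximating functions -/
noncomputable def XX {s : ℕ} (A : Fin s → Finset ℕ) (σ : Fin s → ℕ → ℝ) (c : Fin s → ℝ)
    (h : ℝ[X]) (δ ε : ℝ) (z : (i : Fin s) → A i → ℝ) : ℝ≥0∞ :=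
  (volume (chg (fun x => (total A σ c (h - C δ) z).eval x) ε) +
      volume (chg (fun x => (total A σ c (h + C δ) z).eval x) ε)) / (2 * ENNReal.ofReal ε)

theorem XX_meas0 (hTON : TON) (hJM : JM) {s : ℕ} (A : Fin s → Finset ℕ) (σ : Fin s → ℕ → ℝ)
    (c : Fin s → ℝ) (h' : ℝ[X]) (ε : ℝ) : Measurable
      (fun z => volume (chg (fun x => (total A σ c h' z).eval x) ε)) :=
  (hTON _ (cm A) (fun z x => (total A σ c h' z).eval x) ε (hJM A σ c h').1).1

theorem XX_meas (hTON : TON) (hJM : JM) {s : ℕ} (A : Fin s → Finset ℕ) (σ : Fin s → ℕ → ℝ)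
    (c : Fin s → ℝ) (h : ℝ[X]) (δ ε : ℝ) : Measurable (XX A σ c h δ ε) := by
  unfold XX
  exact ((XX_meas0 hTON hJM A σ c (h - C δ) ε).add
    (XX_meas0 hTON hJM A σ c (h + C δ) ε)).div_const _

theorem XX_ev (hDET3 : DET3) {s : ℕ} (A : Fin s → Finset ℕ) (σ : Fin s → ℕ → ℝ)
    (c : Fin s → ℝ) (h : ℝ[X]) (z : (i : Fin s) → A i → ℝ) :
    ∀ᶠ δ in 𝓝[>] (0 : ℝ), ∀ᶠ ε in 𝓝[>] (0 : ℝ),
      (npos (total A σ c h z) : ℝ≥0∞) ≤ XX A σ c h δ ε z := by
  by_cases h0 : total A σ c h z = 0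
  · refine Filter.Eventually.of_forall (fun δ => Filter.Eventually.of_forall (fun ε => ?_))
    simp [h0, npos]
  · have h3 := hDET3 (total A σ c h z) h0
    filter_upwards [h3] with δ hδ
    have hpos : ∀ᶠ ε in 𝓝[>] (0 : ℝ), 0 < ε := eventually_mem_nhdsWithin
    filter_upwards [hδ, hpos] with ε hε hε0
    unfold XX
    have e0 : (2 * ENNReal.ofReal ε) ≠ 0 := by
      simp [hε0]
    have e1 : (2 * ENNReal.ofReal ε) ≠ ∞ := ENNReal.mul_ne_top (by simp) ENNReal.ofReal_ne_top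
    rw [ENNReal.le_div_iff_mul_le (Or.inl e0) (Or.inl e1)]
    simp only [total_sub, total_add]
    calc (npos (total A σ c h z) : ℝ≥0∞) * (2 * ENNReal.ofReal ε) =
        ENNReal.ofReal ε * (2 * npos (total A σ c h z)) := by ring
      _ ≤ _ := hε

theorem XX_int (hTON : TON) (hDET1 : DET1) (hPAIR : PAIR) (hJM : JM) (hFRZ : FRZ)
    {s : ℕ} (A : Fin s → Finset ℕ) (σ : Fin s → ℕ → ℝ) (c : Fin s → ℝ) (h : ℝ[X])
    (hA : ∀ i, (A i).Nonempty) (hσ : ∀ i, ∀ j ∈ A i, σ i j ≠ 0) (δ ε : ℝ) (hε : 0 < ε) :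
    ∫⁻ z, XX A σ c h δ ε z ∂(cm A) ≤
      ((h.support.card + 3 * ∑ i, (A i).card : ℕ) : ℝ≥0∞) := by
  unfold XX
  have e0 : (2 * ENNReal.ofReal ε) ≠ 0 := by simp [hε]
  have e1 : (2 * ENNReal.ofReal ε) ≠ ∞ := ENNReal.mul_ne_top (by simp) ENNReal.ofReal_ne_top
  have key : ∀ h' : ℝ[X], h'.support.card ≤ h.support.card + 1 →
      ∫⁻ z, volume (chg (fun x => (total A σ c h' z).eval x) ε) ∂(cm A) ≤
        ENNReal.ofReal ε * ((h.support.card + 3 * ∑ i, (A i).card : ℕ) : ℝ≥0∞) := by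
    intro h' hh'
    refine le_trans (expected_chg hTON hDET1 hPAIR hJM hFRZ A σ c h' hA hσ ε hε) ?_
    refine mul_le_mul_right ?_ _
    have : ((h'.support.card + ∑ i, (A i).card - 1 : ℕ) : ℝ≥0∞) +
      2 * ((∑ i, (A i).card : ℕ) : ℝ≥0∞) =
      (((h'.support.card + ∑ i, (A i).card - 1) + 2 * ∑ i, (A i).card : ℕ) : ℝ≥0∞) := by
      push_cast; ring
    rw [this]
    have h2 : (h'.support.card + ∑ i, (A i).card - 1) + 2 * ∑ i, (A i).card ≤
        h.support.card + 3 * ∑ i, (A i).card := by omega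
    exact_mod_cast h2
  have hm := XX_meas0 hTON hJM A σ c (h - C δ) ε
  have hm2 := XX_meas0 hTON hJM A σ c (h + C δ) ε
  simp only [div_eq_mul_inv]
  have hm3 : Measurable (fun z => volume (chg (fun x => (total A σ c (h - C δ) z).eval x) ε) +
      volume (chg (fun x => (total A σ c (h + C δ) z).eval x) ε)) := hm.add hm2
  rw [lintegral_mul_const _ hm3]
  rw [lintegral_add_left hm]
  rw [← div_eq_mul_inv, ENNReal.div_le_iff e0 e1]
  calc _ ≤ ENNReal.ofReal ε * ((h.support.card + 3 * ∑ i, (A i).card : ℕ) : ℝ≥0∞) +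
        ENNReal.ofReal ε * ((h.support.card + 3 * ∑ i, (A i).card : ℕ) : ℝ≥0∞) :=
        add_le_add (key _ (card_sub_C h δ)) (key _ (card_add_C h δ))
    _ = _ := by ring

/-- Expected number of distinct real roots, given the second approximation. -/
theorem expected_roots_aux (hTON : TON) (hDET1 : DET1) (hPAIR : PAIR) (hJM : JM) (hFRZ : FRZ)
    (hDET3 : DET3) (hFAT : FAT)
    {s : ℕ} (A : Fin s → Finset ℕ) (σ σ' : Fin s → ℕ → ℝ) (c : Fin s → ℝ) (h h' : ℝ[X])
    (hA : ∀ i, (A i).Nonempty) (hσ : ∀ i, ∀ j ∈ A i, σ i j ≠ 0)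
    (hσ' : ∀ i, ∀ j ∈ A i, σ' i j ≠ 0) (hcard : h'.support.card = h.support.card)
    (N : ((i : Fin s) → A i → ℝ) → ℕ)
    (hN : ∀ z, N z ≤ npos (total A σ c h z) + npos (total A σ' c h' z) + 1) :
    ∫⁻ z, (N z : ℝ≥0∞) ∂(cm A) ≤
      ((6 * ∑ i, (A i).card + 2 * h.support.card + 1 : ℕ) : ℝ≥0∞) := by
  refine hFAT _ (cm A) _ (fun δ ε z => XX A σ c h δ ε z + XX A σ' c h' δ ε z + 1) _ ?_ ?_ ?_
  · intro δ ε
    exact ((XX_meas hTON hJM A σ c h δ ε).add (XX_meas hTON hJM A σ' c h' δ ε)).add_const 1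
  · intro z
    filter_upwards [XX_ev hDET3 A σ c h z, XX_ev hDET3 A σ' c h' z] with δ h1 h2
    filter_upwards [h1, h2] with ε h3 h4
    have h5 : (N z : ℝ≥0∞) ≤
        ((npos (total A σ c h z) + npos (total A σ' c h' z) + 1 : ℕ) : ℝ≥0∞) :=
      Nat.cast_le.mpr (hN z)
    refine le_trans h5 ?_
    rw [Nat.cast_add, Nat.cast_add, Nat.cast_one]
    exact add_le_add (add_le_add h3 h4) le_rfl
  · intro δ ε hδ hε
    have m1 := XX_meas hTON hJM A σ c h δ ε
    rw [lintegral_add_right _ measurable_const, lintegral_add_left m1, lintegral_const,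
      measure_univ, mul_one]
    have i1 := XX_int hTON hDET1 hPAIR hJM hFRZ A σ c h hA hσ δ ε hε
    have i2 := XX_int hTON hDET1 hPAIR hJM hFRZ A σ' c h' hA hσ' δ ε hε
    rw [hcard] at i2
    refine le_trans (add_le_add (add_le_add i1 i2) le_rfl) (le_of_eq ?_)
    rw [← Nat.cast_add, ← Nat.cast_one, ← Nat.cast_add]
    congr 1
    ring

/-- Expected number of distinct real roots. -/
theorem expected_roots (hTON : TON) (hDET1 : DET1) (hPAIR : PAIR) (hJM : JM) (hFRZ : FRZ)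
    (hDET3 : DET3) (hFAT : FAT) (hNEG : NEG)
    {s : ℕ} (A : Fin s → Finset ℕ) (σ : Fin s → ℕ → ℝ) (c : Fin s → ℝ) (h : ℝ[X])
    (hA : ∀ i, (A i).Nonempty) (hσ : ∀ i, ∀ j ∈ A i, σ i j ≠ 0) :
    ∫⁻ z, ((total A σ c h z).roots.toFinset.card : ℝ≥0∞) ∂(cm A) ≤
      ((6 * ∑ i, (A i).card + 2 * h.support.card + 1 : ℕ) : ℝ≥0∞) :=
  expected_roots_aux hTON hDET1 hPAIR hJM hFRZ hDET3 hFAT A σ
    (fun i j => (-1) ^ j * σ i j) c h (h.comp (-Polynomial.X)) hA hσ
    (fun i j hj => mul_ne_zero (pow_ne_zero _ (by norm_num)) (hσ i j hj))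
    (hNEG A σ c h (fun _ _ => 0)).2 _ (fun z => (hNEG A σ c h z).1)

end Pool.Agent.W873.RS
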